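import Pool.Agent.Helper13.TW.StE

/-!
# Project TW, module CSS: the cells of a 2-manifold are a cell system
-/

set_option autoImplicit false

namespace Pool.Agent.Helper72.TW

open Set Topology Pool.Agent.Helper13.TR Pool.Agent.Helper13.TW

namespace CSS

variable {S : Type} [MetricSpace S] [LocallyPathConnectedSpace S] [PathConnectedSpace S]

/-- One cut of a cell. -/
private theorem cut (hTHE : StTHE) {ω : S → Ch S 2 → ℤ} {V : Set S} (hg : GR S ω V) {J : Set S}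
    (hJ : Cel ω V J) {p q : S} {D₁ D₂ P : Set S} (hs : Spl J p q D₁ D₂) (hP : Crs ω J p q P) :
    Splt (cl ω J) J p q D₁ D₂ P (cl ω (D₁ ∪ P)) (cl ω (D₂ ∪ P)) ∧ Cel ω V (D₁ ∪ P) ∧
      Cel ω V (D₂ ∪ P) := by
  obtain ⟨h1, h2, -, -, h5, h6, h7, h8⟩ := hTHE S ω V hg J hJ p q D₁ D₂ P hs hP
  exact ⟨⟨hs, hP.1, hP.2.1, h5, h6, h7, h8⟩, h1, h2⟩

private theorem fin_aux (hTHE : StTHE) {ω : S → Ch S 2 → ℤ} {V : Set S} (hg : GR S ω V) {ε : ℝ}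
    {J : Set S} (h : GS ω (fun J' => Metric.diam (cl ω J') < ε) J) : Cel ω V J →
    GT (fun E J => Cel ω V J ∧ E = cl ω J) ε (cl ω J) J := by
  induction h with
  | leaf J hΦ => exact fun _ => GT.leaf _ _ hΦ
  | node J p q D₁ D₂ P hs hP _ _ ih1 ih2 =>
    intro hJ
    obtain ⟨h1, h2, h3⟩ := cut hTHE hg hJ hs hP
    exact GT.node _ _ p q D₁ D₂ P _ _ h1 ⟨h2, rfl⟩ ⟨h3, rfl⟩ (ih1 h2) (ih2 h3)

end CSS

open CSS in
/-- CSS. -/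
theorem hCSS (hTWO : StTWO) (hTHE : StTHE) (hACC : StACC) (hS3B : StS3B) (_hSCL : StSCL)
    (hARB : StARB) : StCSS := by
  intro S _ _ _ ω V hg hL
  refine ⟨?_, ?_, ?_⟩
  · rintro E J ⟨hJ, rfl⟩
    exact ⟨(hTWO S ω V hg J hJ.1).2.2.1, subset_union_left, hJ.1.1⟩
  · rintro E J p q D₁ D₂ ⟨hJ, rfl⟩ hs
    have hA := hARB.1 S D₁ p q hs.1
    have hDJ : D₁ ⊆ J := by rw [← hs.2.2.2]; exact subset_union_left
    obtain ⟨P, hP⟩ := hACC S ω V hg J hJ.1 p (hDJ hA.2.2.1) q (hDJ hA.2.2.2.1) hA.2.2.2.2.1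
    obtain ⟨h1, h2, h3⟩ := cut hTHE hg hJ hs hP
    exact ⟨P, _, _, h1, ⟨h2, rfl⟩, ⟨h3, rfl⟩⟩
  · rintro ε hε E J ⟨hJ, rfl⟩
    exact fin_aux hTHE hg (hS3B S ω V hg hL J hJ ε hε) hJ

end Pool.Agent.Helper72.TW
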