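import Pool.Agent.Helper13.TW.StC

/-!
# Project TW, module THE: the theta curve lemma
-/

set_option autoImplicit false

namespace Pool.Agent.Helper72.TW

open Set Topology Pool.Agent.Helper13.TR Pool.Agent.Helper13.TW

namespace THE

variable {S : Type} [MetricSpace S]

private theorem cin_mono' {A B : Set S} (h : A ⊆ B) (n : ℕ) : cin A n ≤ cin B n :=
  Finsupp.supported_mono fun _ hs => hs.trans h

private theorem spl_swap {J : Set S} {p q : S} {D₁ D₂ : Set S} (h : Spl J p q D₁ D₂) :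
    Spl J p q D₂ D₁ := by
  obtain ⟨h1, h2, h3, h4⟩ := h
  exact ⟨h2, h1, by rw [inter_comm]; exact h3, by rw [union_comm]; exact h4⟩

/-- The cycle of two arcs. -/
private theorem cyc (hAC1 : StAC1) {ω : S → Ch S 2 → ℤ} {V : Set S} (hg : GR S ω V)
    {D P : Set S} {p q : S} (hD : IsArc D p q) (hP : IsArc P p q) (hDV : D ⊆ V) (hPV : P ⊆ V) :
    dch D p q - dch P p q ∈ cin (D ∪ P) 1 ∧ ∃ e : Ch S 2, bd 1 e = dch D p q - dch P p q := by
  have h1 := (hAC1 S D p q hD).2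
  have h2 := (hAC1 S P p q hP).2
  have h3 : dch D p q - dch P p q ∈ cin (D ∪ P) 1 :=
    Submodule.sub_mem _ (cin_mono' subset_union_left 1 h1.1) (cin_mono' subset_union_right 1 h2.1)
  refine ⟨h3, hg.bv _ (cin_mono' (union_subset hDV hPV) 1 h3) ?_⟩
  rw [map_sub, h1.2, h2.2, sub_self]

/-- What is known about one of the two curves. -/
private theorem side [LocallyPathConnectedSpace S] [PathConnectedSpace S] (hTWO : StTWO)
    (hCLS : StCLS) (hWIN : StWIN) (hARB : StARB) (hAC1 : StAC1) {ω : S → Ch S 2 → ℤ} {V : Set S}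
    (hg : GR S ω V) {J : Set S} (hJ : Ess ω V J) {p q : S} {D₁ D₂ P : Set S} (hs : Spl J p q D₁ D₂)
    (hP : IsArc P p q) (hPJ : P ∩ J = {p, q}) (hPV : P ⊆ V) (hPc : P ⊆ cl ω J) :
    (∀ x ∈ Out ω J, wd ω D₁ P p q x = 0) ∧ (∀ x ∈ D₂ \ {p, q}, wd ω D₁ P p q x = 0) ∧
    ∃ y ∈ Ins ω J, y ∉ P ∧ wd ω D₁ P p q y = 0 := by
  obtain ⟨⟨hIo, hIp⟩, ⟨hOo, hOp⟩, hcl, -, -⟩ := hTWO S ω V hg J hJ
  obtain ⟨hc1, hc2, -⟩ := hCLS S ω V hg J hJ
  obtain ⟨-, -, hW3, hW4, -⟩ := hWIN S ω hg.ws hg.nc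
  obtain ⟨hsD1, hsD2, hs3, hs4⟩ := hs
  have hD1J : D₁ ⊆ J := by rw [← hs4]; exact subset_union_left
  have hD2J : D₂ ⊆ J := by rw [← hs4]; exact subset_union_right
  have hJV : J ⊆ V := hJ.2.1
  obtain ⟨hz, hze⟩ := cyc hAC1 hg hsD1 hP (hD1J.trans hJV) hPV
  have hA1 := hARB.1 S D₁ p q hsD1
  have hAP := hARB.1 S P p q hP
  have hA2 := hARB.1 S D₂ p q hsD2
  have hcomp : IsCompact (D₁ ∪ P) := hA1.2.1.union hAP.2.1
  have hO : IsOpen (D₁ ∪ P)ᶜ := hcomp.isClosed.isOpen_compl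
  -- the winding number is constant along paths in the complement
  have hconst : ∀ x y : S, JoinedIn (D₁ ∪ P)ᶜ x y → wd ω D₁ P p q x = wd ω D₁ P p q y :=
    fun x y hxy => hW3 _ _ hze hO (by rw [compl_compl]; exact hz) x y hxy
  have hJcl : J ⊆ cl ω J := subset_union_left
  have hOutc : Out ω J ⊆ (D₁ ∪ P)ᶜ := by
    intro x hx hx2
    rcases hx2 with hx2 | hx2
    · exact hx (hJcl (hD1J hx2))
    · exact hx (hPc hx2)
  -- (a)
  have ha : ∀ x ∈ Out ω J, wd ω D₁ P p q x = 0 := by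
    obtain ⟨Q, hQ, hQ0⟩ := hW4 _ hze
    have hex : ∃ y ∈ Out ω J, y ∉ Q := by
      by_contra hne
      push Not at hne
      apply hg.nc
      have hu : (univ : Set S) = cl ω J ∪ Q := by
        refine Subset.antisymm (fun x _ => ?_) (subset_univ _)
        by_cases hx : x ∈ cl ω J
        · exact Or.inl hx
        · exact Or.inr (hne x hx)
      exact ⟨by rw [hu]; exact hcl.union hQ⟩
    obtain ⟨y, hy, hyQ⟩ := hex
    intro x hx
    have hj : JoinedIn (D₁ ∪ P)ᶜ x y := (hOp.joinedIn x hx y hy).mono hOutc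
    rw [hconst x y hj]
    exact hQ0 y hyQ
  -- near the points of the other arc
  have hnear : ∀ r ∈ D₂ \ {p, q}, r ∈ (D₁ ∪ P)ᶜ := by
    rintro r ⟨hr, hrpq⟩ (hr2 | hr2)
    · apply hrpq
      rw [← hs3]
      exact ⟨hr2, hr⟩
    · apply hrpq
      rw [← hPJ]
      exact ⟨hr2, hD2J hr⟩
  have hb : ∀ r ∈ D₂ \ {p, q}, wd ω D₁ P p q r = 0 := by
    intro r hr
    have hop : IsOpen (pathComponentIn (D₁ ∪ P)ᶜ r) := hO.pathComponentIn r
    have hrm : r ∈ pathComponentIn (D₁ ∪ P)ᶜ r := mem_pathComponentIn_self (hnear r hr)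
    obtain ⟨y, hy1, hy2⟩ := mem_closure_iff.1 (hc2 (hD2J hr.1)) _ hop hrm
    rw [hconst r y hy1]
    exact ha y hy2
  refine ⟨ha, hb, ?_⟩
  obtain ⟨r, hr⟩ := hA2.2.2.2.2.2.2.2.2.1.nonempty
  have hop : IsOpen (pathComponentIn (D₁ ∪ P)ᶜ r) := hO.pathComponentIn r
  have hrm : r ∈ pathComponentIn (D₁ ∪ P)ᶜ r := mem_pathComponentIn_self (hnear r hr)
  obtain ⟨y, hy1, hy2⟩ := mem_closure_iff.1 (hc1 (hD2J hr.1)) _ hop hrm
  refine ⟨y, hy2, fun hyP => ?_, ?_⟩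
  · exact (pathComponentIn_subset hy1) (Or.inr hyP)
  · rw [← hconst r y hy1]
    exact hb r hr

private theorem crs_inter {ω : S → Ch S 2 → ℤ} {J : Set S} {p q : S} {D₁ D₂ P : Set S}
    (hARB : StARB) (hs : Spl J p q D₁ D₂) (hP : Crs ω J p q P) : D₁ ∩ P = {p, q} := by
  obtain ⟨hsD1, hsD2, hs3, hs4⟩ := hs
  have hA1 := hARB.1 S D₁ p q hsD1
  have hAP := hARB.1 S P p q hP.1
  refine Subset.antisymm ?_ ?_
  · rintro x ⟨hx1, hx2⟩
    rw [← hP.2.1]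
    exact ⟨hx2, by rw [← hs4]; exact Or.inl hx1⟩
  · rintro x (rfl | rfl)
    · exact ⟨hA1.2.2.1, hAP.2.2.1⟩
    · exact ⟨hA1.2.2.2.1, hAP.2.2.2.1⟩

private theorem crs_sub {ω : S → Ch S 2 → ℤ} {J : Set S} {p q : S} {D₁ D₂ P : Set S}
    (hARB : StARB) (hs : Spl J p q D₁ D₂) (hP : Crs ω J p q P) : P ⊆ cl ω J := by
  intro x hx
  by_cases hpq : x ∈ ({p, q} : Set S)
  · rw [← hP.2.1] at hpq
    exact Or.inl hpq.2
  · exact Or.inr (hP.2.2 ⟨hx, hpq⟩)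

private theorem half [LocallyPathConnectedSpace S] [PathConnectedSpace S] (hTWO : StTWO)
    (hCLS : StCLS) (hWIN : StWIN) (hWD : StWD) (hARB : StARB) (hAC1 : StAC1)
    {ω : S → Ch S 2 → ℤ} {V : Set S} (hg : GR S ω V) {J : Set S} (hJ : Cel ω V J) {p q : S}
    {D₁ D₂ P : Set S} (hs : Spl J p q D₁ D₂) (hP : Crs ω J p q P) :
    (Ins ω (D₂ ∪ P)).Nonempty ∧
    (Ess ω V (D₁ ∪ P) → Ins ω (D₁ ∪ P) ⊆ Ins ω J \ P) ∧
    ∃ m : ℤ, m ≠ 0 ∧ (∀ x ∈ Ins ω J, x ∉ P → wd ω D₁ P p q x + wd ω P D₂ p q x = m) ∧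
      ∃ y ∈ Ins ω (D₂ ∪ P), wd ω P D₂ p q y = m := by
  have hPc : P ⊆ cl ω J := crs_sub hARB hs hP
  have hPV : P ⊆ V := fun x hx => by
    rcases hPc hx with h | h
    · exact hJ.1.2.1 h
    · exact hJ.2 h
  obtain ⟨ha, hb, y, hyI, hyP, hy0⟩ := side hTWO hCLS hWIN hARB hAC1 hg hJ.1 hs hP.1 hP.2.1 hPV hPc
  obtain ⟨m, hm0, hm, -⟩ := (hTWO S ω V hg J hJ.1).2.2.2.2 p q D₁ D₂ hs
  have hD1J : D₁ ⊆ J := by rw [← hs.2.2.2]; exact subset_union_left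
  have hD2J : D₂ ⊆ J := by rw [← hs.2.2.2]; exact subset_union_right
  have hsum : ∀ x ∈ Ins ω J, x ∉ P → wd ω D₁ P p q x + wd ω P D₂ p q x = m := by
    intro x hx hxP
    rw [← hm x hx]
    exact (hWD S ω V hg).2.1 D₁ P D₂ p q hs.1 hP.1 hs.2.1 (hD1J.trans hJ.1.2.1) hPV
      (hD2J.trans hJ.1.2.1) x (fun h => hx.1 (hD1J h)) hxP (fun h => hx.1 (hD2J h))
  have hy2 : wd ω P D₂ p q y = m := by
    have h := hsum y hyI hyP
    rw [hy0, zero_add] at h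
    exact h
  have hspl2 : Spl (D₂ ∪ P) p q P D₂ :=
    ⟨hP.1, hs.2.1, by rw [inter_comm]; exact crs_inter hARB (spl_swap hs) hP, union_comm _ _⟩
  have hyIn : y ∈ Ins ω (D₂ ∪ P) := by
    refine ⟨?_, p, q, P, D₂, hspl2, by rw [hy2]; exact hm0⟩
    rintro (h | h)
    · exact hyI.1 (hD2J h)
    · exact hyP h
  refine ⟨⟨y, hyIn⟩, ?_, m, hm0, hsum, y, hyIn, hy2⟩
  intro hE x hx
  have hspl1 : Spl (D₁ ∪ P) p q D₁ P := ⟨hs.1, hP.1, crs_inter hARB hs hP, rfl⟩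
  obtain ⟨m1, hm1, hm1', -⟩ := (hTWO S ω V hg (D₁ ∪ P) hE).2.2.2.2 p q D₁ P hspl1
  have hne : wd ω D₁ P p q x ≠ 0 := by
    rw [hm1' x hx]
    exact hm1
  have hxcl : x ∈ cl ω J := by
    by_contra hcon
    exact hne (ha x hcon)
  have hxP : x ∉ P := fun h => hx.1 (Or.inr h)
  refine ⟨?_, hxP⟩
  rcases hxcl with hxJ | hxI
  · exfalso
    rw [← hs.2.2.2] at hxJ
    rcases hxJ with h | h
    · exact hx.1 (Or.inl h)
    · apply hne
      apply hb x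
      refine ⟨h, fun hpq => hx.1 (Or.inl ?_)⟩
      rw [← hs.2.2.1] at hpq
      exact hpq.1
  · exact hxI

end THE

open THE in
/-- THE. -/
theorem hTHE (hTWO : StTWO) (hCLS : StCLS) (hWIN : StWIN) (hWD : StWD) (hARB : StARB)
    (_hSCL : StSCL) (hAC1 : StAC1) : StTHE := by
  intro S _ _ _ ω V hg J hJ p q D₁ D₂ P hs hP
  have hs' := spl_swap hs
  obtain ⟨hn2, hc1, m, hm0, hsum, y, hy, hym⟩ := half hTWO hCLS hWIN hWD hARB hAC1 hg hJ hs hP
  obtain ⟨hn1, hc2, -⟩ := half hTWO hCLS hWIN hWD hARB hAC1 hg hJ hs' hP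
  have hPc : P ⊆ cl ω J := crs_sub hARB hs hP
  have hPV : P ⊆ V := fun x hx => by
    rcases hPc hx with h | h
    · exact hJ.1.2.1 h
    · exact hJ.2 h
  have hD1J : D₁ ⊆ J := by rw [← hs.2.2.2]; exact subset_union_left
  have hD2J : D₂ ⊆ J := by rw [← hs.2.2.2]; exact subset_union_right
  have hi1 := crs_inter hARB hs hP
  have hi2 := crs_inter hARB hs' hP
  have hspl1 : Spl (D₁ ∪ P) p q D₁ P := ⟨hs.1, hP.1, hi1, rfl⟩
  have hspl2 : Spl (D₂ ∪ P) p q P D₂ := ⟨hP.1, hs.2.1, by rw [inter_comm]; exact hi2, union_comm _ _⟩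
  have hE1 : Ess ω V (D₁ ∪ P) :=
    ⟨⟨p, q, D₁, P, hspl1⟩, union_subset (hD1J.trans hJ.1.2.1) hPV, hn1⟩
  have hE2 : Ess ω V (D₂ ∪ P) :=
    ⟨⟨p, q, P, D₂, hspl2⟩, union_subset (hD2J.trans hJ.1.2.1) hPV, hn2⟩
  have hI1 := hc1 hE1
  have hI2 := hc2 hE2
  obtain ⟨m1, hm1, hm1', hm1o⟩ := (hTWO S ω V hg (D₁ ∪ P) hE1).2.2.2.2 p q D₁ P hspl1
  obtain ⟨m2, hm2, hm2', hm2o⟩ := (hTWO S ω V hg (D₂ ∪ P) hE2).2.2.2.2 p q P D₂ hspl2
  have hmm : m2 = m := by rw [← hm2' y hy, hym]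
  have hdis : Ins ω (D₁ ∪ P) ∩ Ins ω (D₂ ∪ P) = ∅ := by
    rw [eq_empty_iff_forall_notMem]
    rintro x ⟨hx1, hx2⟩
    have h := hsum x (hI1 hx1).1 (hI1 hx1).2
    rw [hm1' x hx1, hm2' x hx2, hmm] at h
    omega
  have huni : Ins ω (D₁ ∪ P) ∪ Ins ω (D₂ ∪ P) = Ins ω J \ P := by
    refine Subset.antisymm (union_subset hI1 hI2) ?_
    rintro x ⟨hxI, hxP⟩
    by_contra hcon
    rw [mem_union, not_or] at hcon
    have h := hsum x hxI hxP
    have ho1 : x ∈ Out ω (D₁ ∪ P) := by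
      rintro ((h1 | h1) | h1)
      · exact hxI.1 (hD1J h1)
      · exact hxP h1
      · exact hcon.1 h1
    have ho2 : x ∈ Out ω (D₂ ∪ P) := by
      rintro ((h1 | h1) | h1)
      · exact hxI.1 (hD2J h1)
      · exact hxP h1
      · exact hcon.2 h1
    rw [hm1o x ho1, hm2o x ho2, add_zero] at h
    exact hm0 h.symm
  have hside : ∀ (D : Set S), D ⊆ J → D ∩ P = {p, q} → Ins ω (D ∪ P) ⊆ Ins ω J \ P →
      cl ω (D ∪ P) ∩ J = D := by
    intro D hD hDP hI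
    refine Subset.antisymm ?_ fun x hx => ⟨Or.inl (Or.inl hx), hD hx⟩
    rintro x ⟨(hx | hx) | hx, hxJ⟩
    · exact hx
    · have h1 : x ∈ ({p, q} : Set S) := by
        rw [← hP.2.1]
        exact ⟨hx, hxJ⟩
      rw [← hDP] at h1
      exact h1.1
    · exact absurd hxJ (hI hx).1.1
  refine ⟨⟨hE1, fun x hx => hJ.2 (hI1 hx).1⟩, ⟨hE2, fun x hx => hJ.2 (hI2 hx).1⟩, hdis, huni, ?_, ?_,
    hside D₁ hD1J hi1 hI1, hside D₂ hD2J hi2 hI2⟩
  · refine Subset.antisymm ?_ ?_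
    · rintro x (((h | h) | h) | ((h | h) | h))
      · exact Or.inl (hD1J h)
      · exact hPc h
      · exact Or.inr (hI1 h).1
      · exact Or.inl (hD2J h)
      · exact hPc h
      · exact Or.inr (hI2 h).1
    · rintro x (h | h)
      · rw [← hs.2.2.2] at h
        rcases h with h | h
        · exact Or.inl (Or.inl (Or.inl h))
        · exact Or.inr (Or.inl (Or.inl h))
      · by_cases hxP : x ∈ P
        · exact Or.inl (Or.inl (Or.inr hxP))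
        · have h1 : x ∈ Ins ω (D₁ ∪ P) ∪ Ins ω (D₂ ∪ P) := by
            rw [huni]
            exact ⟨h, hxP⟩
          rcases h1 with h1 | h1
          · exact Or.inl (Or.inr h1)
          · exact Or.inr (Or.inr h1)
  · refine Subset.antisymm ?_ fun x hx => ⟨Or.inl (Or.inr hx), Or.inl (Or.inr hx)⟩
    rintro x ⟨h1, h2⟩
    by_contra hxP
    rcases h1 with (h1 | h1) | h1
    · rcases h2 with (h2 | h2) | h2
      · have h3 : x ∈ ({p, q} : Set S) := by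
          rw [← hs.2.2.1]
          exact ⟨h1, h2⟩
        rw [← hi1] at h3
        exact hxP h3.2
      · exact hxP h2
      · exact (hI2 h2).1.1 (hD1J h1)
    · exact hxP h1
    · rcases h2 with (h2 | h2) | h2
      · exact (hI1 h1).1.1 (hD2J h2)
      · exact hxP h2
      · have h3 : x ∈ Ins ω (D₁ ∪ P) ∩ Ins ω (D₂ ∪ P) := ⟨h1, h2⟩
        rw [hdis] at h3
        exact h3

end Pool.Agent.Helper72.TW
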